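import Mathlib
import Pool.Agent.TH777.Y.Sent
import Pool.Agent.V11242.SS.Defs

/-!
# The sentence which implies that `𝔰𝔰_c < 𝔡`, and its translation into the forcing language
-/

set_option autoImplicit false

namespace Pool.Agent.W5h83.SS

open Cardinal Pool.Agent.TH777.Y Pool.Agent.Helper669.Forcing

/-- The dominating number. -/
noncomputable def dNum : Cardinal.{0} :=
  sInf {c | ∃ D : Set (ℕ → ℕ), (∀ f : ℕ → ℕ, ∃ g ∈ D, ∃ N, ∀ n, N ≤ n → f n ≤ g n) ∧ #D = c}

/-- the length of the interval with index `n` -/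
def len (n : ℕ) : ℕ := (2 * 2 ^ n + 1) ^ n + 1

/-- The bound. -/
def bB (n : ℕ) : ℕ := (2 * 2 ^ n + 1) ^ len n

/-- No family of functions indexed by `Ω` is dominating. -/
def NotDomAll (Ω : Type) : Prop :=
  ∀ g : Ω → ℕ → ℕ, ∃ x : ℕ → ℕ, ∀ i, ¬ ∃ N, ∀ n, N ≤ n → x n ≤ g i n

/-- The combinatorial sentence: `Ω` many slaloms of width `n` capture all functions bounded by
`bB`, but no family of functions indexed by `Ω` is dominating. -/
def PsiFor (Ω : Type) : Prop := CapAll Ω bB ∧ NotDomAll Ω

/-- Forcing version of `NotDomAll`. -/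
def NotDomAllN (P : Type) [Preorder P] (Ω : Type) : Set P :=
  fall fun g : Ω → ℕ → ℕ → Set P => fimp (fall fun i => IsFun (g i))
    (fex fun x : ℕ → ℕ → Set P => fand (IsFun x) (fall fun i => fnot (DominatesN (g i) x)))

/-- The translation of `PsiFor` into the forcing language. -/
def PsiHolds (P : Type) [Preorder P] (Ω : Type) : Set P :=
  fand (CapAllN P Ω bB) (NotDomAllN P Ω)

end Pool.Agent.W5h83.SS
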