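import Mathlib
import Pool.Agent.W5h83.SS.Defs
import Pool.Agent.V11242.SS.Series

/-!
# The convergent-subseries number and bounded localization

If `Ω` many slaloms of width `n` capture all functions below a certain bound, then
`𝔰𝔰_c ≤ |Ω|`.
-/

set_option autoImplicit false
set_option linter.unusedSectionVars false

namespace Pool.Agent.W5h83.SS

open Cardinal Set Filter Topology Pool.Agent.V11242.SS Pool.Agent.TH777.Y

/-- the left end point of the interval with index `n` -/
def uu : ℕ → ℕ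
  | 0 => 0
  | n + 1 => uu n + len n

theorem len_pos (n : ℕ) : 0 < len n := Nat.succ_pos _

theorem uu_succ (n : ℕ) : uu (n + 1) = uu n + len n := rfl

theorem uu_strictMono : StrictMono uu := strictMono_nat_of_lt_succ fun n => by
  rw [uu_succ]
  have := len_pos n
  omega

/-- the partial sums in the interval with index `n` -/
def part (a : ℕ → ℚ) (n t : ℕ) : ℚ := ∑ i ∈ Finset.Ico (uu n) (uu n + t), a i

/-- the rounded partial sums -/
def rnd (a : ℕ → ℚ) (n t : ℕ) : ℕ := min (⌊part a n t * 2 ^ n⌋ + 2 ^ n).toNat (2 * 2 ^ n)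

theorem rnd_lt (a : ℕ → ℚ) (n t : ℕ) : rnd a n t < 2 * 2 ^ n + 1 :=
  Nat.lt_succ_of_le (min_le_right _ _)

/-- the rounded partial sums as a vector -/
def vec (a : ℕ → ℚ) (n : ℕ) : Fin (len n) → Fin (2 * 2 ^ n + 1) :=
  fun t => ⟨rnd a n t, rnd_lt a n t⟩

/-- the code of the vector of the rounded partial sums -/
def cod (a : ℕ → ℚ) (n : ℕ) : ℕ := (finFunctionFinEquiv (vec a n)).val

theorem cod_lt (a : ℕ → ℚ) (n : ℕ) : cod a n < bB n := (finFunctionFinEquiv (vec a n)).isLt

/-- the vector with a given code -/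
def dec (n v : ℕ) (t : Fin (len n)) : Fin (2 * 2 ^ n + 1) :=
  if h : v < (2 * 2 ^ n + 1) ^ len n then finFunctionFinEquiv.symm ⟨v, h⟩ t
  else ⟨0, Nat.succ_pos _⟩

theorem dec_cod (a : ℕ → ℚ) (n : ℕ) : dec n (cod a n) = vec a n := by
  funext t
  unfold dec
  rw [dif_pos (show cod a n < (2 * 2 ^ n + 1) ^ len n from cod_lt a n)]
  have : (⟨cod a n, cod_lt a n⟩ : Fin ((2 * 2 ^ n + 1) ^ len n)) =
    finFunctionFinEquiv (vec a n) := rfl
  rw [this, Equiv.symm_apply_apply]

theorem close_of_rnd_eq {a : ℕ → ℚ} {n s t : ℕ} (hs : |part a n s| ≤ 1) (ht : |part a n t| ≤ 1)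
    (h : rnd a n s = rnd a n t) : |part a n t - part a n s| ≤ (1 / 2) ^ n := by
  have key : ∀ t, |part a n t| ≤ 1 →
      ((rnd a n t : ℕ) : ℤ) = ⌊part a n t * 2 ^ n⌋ + 2 ^ n := by
    intro t ht
    rw [abs_le] at ht
    have hpos : (0 : ℚ) < 2 ^ n := by positivity
    have h1 : -(2 ^ n : ℤ) ≤ ⌊part a n t * 2 ^ n⌋ := by
      rw [Int.le_floor]
      push_cast
      nlinarith [ht.1]
    have h2 : ⌊part a n t * 2 ^ n⌋ ≤ (2 ^ n : ℤ) := by
      have : part a n t * 2 ^ n ≤ ((2 ^ n : ℤ) : ℚ) := by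
        push_cast
        nlinarith [ht.2]
      have h3 := Int.floor_le_floor this
      rwa [Int.floor_intCast] at h3
    unfold rnd
    rw [Nat.cast_min]
    have h4 : ((⌊part a n t * 2 ^ n⌋ + 2 ^ n).toNat : ℤ) = ⌊part a n t * 2 ^ n⌋ + 2 ^ n :=
      Int.toNat_of_nonneg (by omega)
    rw [h4]
    push_cast
    omega
  have h1 := key s hs
  have h2 := key t ht
  rw [h] at h1
  have h3 : ⌊part a n s * 2 ^ n⌋ = ⌊part a n t * 2 ^ n⌋ := by omega
  have h4 := Int.abs_sub_lt_one_of_floor_eq_floor h3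
  rw [← sub_mul, abs_mul, abs_of_pos (by positivity : (0 : ℚ) < 2 ^ n)] at h4
  rw [abs_sub_comm, one_div, inv_pow]
  rw [← one_div, le_div_iff₀ (by positivity)]
  exact h4.le

/-- the two end points -/
theorem exists_pair {S : ℕ → ℕ → Prop} (hS : Slalom (fun n => n) S) (n : ℕ) :
    ∃ s t : ℕ, s < t ∧ t < len n ∧ ∀ a : ℕ → ℚ, S n (cod a n) → rnd a n s = rnd a n t := by
  classical
  -- the members of the slalom
  obtain ⟨T, hT, hT'⟩ : ∃ T : Finset ℕ, T.card ≤ n ∧ ∀ v, S n v → v ∈ T := by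
    have hfin : {v | S n v}.Finite := by
      by_contra hcon
      obtain ⟨t, ht, htc⟩ := Set.Infinite.exists_subset_card_eq (s := {v | S n v}) hcon (n + 1)
      obtain ⟨v, hv, hv'⟩ := hS n t (by show n < t.card; omega)
      exact hv' (ht hv)
    refine ⟨hfin.toFinset, ?_, fun v hv => hfin.mem_toFinset.2 hv⟩
    by_contra hcon
    push Not at hcon
    obtain ⟨v, hv, hv'⟩ := hS n _ hcon
    exact hv' (hfin.mem_toFinset.1 hv)
  let f : Fin (len n) → (T → Fin (2 * 2 ^ n + 1)) := fun t v => dec n v.1 t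
  have hcard : Fintype.card (T → Fin (2 * 2 ^ n + 1)) < Fintype.card (Fin (len n)) := by
    rw [Fintype.card_fun, Fintype.card_fin, Fintype.card_fin, Fintype.card_coe]
    unfold len
    exact Nat.lt_succ_of_le (Nat.pow_le_pow_right (Nat.succ_pos _) hT)
  obtain ⟨s, t, hne, hst⟩ := Fintype.exists_ne_map_eq_of_card_lt f hcard
  have key : ∀ a : ℕ → ℚ, S n (cod a n) → rnd a n s = rnd a n t := by
    intro a ha
    have h1 := congrFun hst ⟨cod a n, hT' _ ha⟩
    simp only [f, dec_cod, vec] at h1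
    exact congrArg Fin.val h1
  rcases lt_or_gt_of_ne (fun h => hne (Fin.ext h) : (s : ℕ) ≠ t) with h | h
  · exact ⟨s, t, h, t.isLt, key⟩
  · exact ⟨t, s, h, s.isLt, fun a ha => (key a ha).symm⟩

/-- the union of the intervals `[u n + s n, u n + t n)` -/
def XX (s t : ℕ → ℕ) : Set ℕ := {j | ∃ n, uu n + s n ≤ j ∧ j < uu n + t n}

theorem mem_XX_iff {s t : ℕ → ℕ} (ht : ∀ n, t n < len n) {n j : ℕ} (h1 : uu n ≤ j)
    (h2 : j < uu (n + 1)) : j ∈ XX s t ↔ uu n + s n ≤ j ∧ j < uu n + t n := by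
  constructor
  · rintro ⟨m, hm1, hm2⟩
    have h3 := ht m
    have h4 := uu_succ m
    rcases lt_trichotomy m n with h | rfl | h
    · have := uu_strictMono.monotone (Nat.succ_le_of_lt h)
      simp only [Nat.succ_eq_add_one] at this
      omega
    · exact ⟨hm1, hm2⟩
    · have := uu_strictMono.monotone (Nat.succ_le_of_lt h)
      simp only [Nat.succ_eq_add_one] at this
      omega
  · rintro ⟨h3, h4⟩
    exact ⟨n, h3, h4⟩

theorem infCo_XX {s t : ℕ → ℕ} (hst : ∀ n, s n < t n) (ht : ∀ n, t n < len n) :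
    InfCo (XX s t) := by
  constructor
  · refine Set.infinite_of_not_bddAbove fun ⟨b, hb⟩ => ?_
    have h1 : uu (b + 1) + s (b + 1) ∈ XX s t := ⟨b + 1, le_rfl, by
      have := hst (b + 1)
      omega⟩
    have h2 := hb h1
    have h3 : b + 1 ≤ uu (b + 1) := uu_strictMono.le_apply
    omega
  · refine Set.infinite_of_not_bddAbove fun ⟨b, hb⟩ => ?_
    have h0 := uu_succ (b + 1)
    have ht' := ht (b + 1)
    have h1 : uu (b + 1) + t (b + 1) ∈ (XX s t)ᶜ := by
      intro h
      rw [mem_XX_iff ht (n := b + 1) (by omega) (by omega)] at h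
      omega
    have h2 := hb h1
    have h3 : b + 1 ≤ uu (b + 1) := uu_strictMono.le_apply
    omega

open Classical in
/-- the part of a sum over the interval with index `n` -/
theorem sum_block {s t : ℕ → ℕ} (hst : ∀ n, s n < t n) (ht : ∀ n, t n < len n) (a : ℕ → ℚ)
    {n m : ℕ} (h1 : uu n ≤ m) (h2 : m ≤ uu (n + 1)) :
    psum a (XX s t) m = psum a (XX s t) (uu n) +
      ((∑ i ∈ Finset.range (min (max m (uu n + s n)) (uu n + t n)), (a i : ℝ)) -
        ∑ i ∈ Finset.range (uu n + s n), (a i : ℝ)) := by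
  have hs := hst n
  induction m, h1 using Nat.le_induction with
  | base =>
    have h3 : min (max (uu n) (uu n + s n)) (uu n + t n) = uu n + s n := by omega
    rw [h3, sub_self, add_zero]
  | succ m hm ih =>
    have ih := ih (by omega)
    have h4 : psum a (XX s t) (m + 1) = psum a (XX s t) m +
        if m ∈ XX s t then (a m : ℝ) else 0 := by
      unfold psum
      rw [Finset.sum_range_succ]
    rw [h4, ih]
    have h5 := mem_XX_iff (s := s) ht hm (Nat.lt_of_succ_le h2)
    by_cases hmX : m ∈ XX s t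
    · rw [if_pos hmX]
      rw [h5] at hmX
      have h6 : min (max m (uu n + s n)) (uu n + t n) = m := by omega
      have h7 : min (max (m + 1) (uu n + s n)) (uu n + t n) = m + 1 := by omega
      rw [h6, h7, Finset.sum_range_succ]
      ring
    · rw [if_neg hmX]
      rw [h5] at hmX
      have h6 : min (max (m + 1) (uu n + s n)) (uu n + t n) =
        min (max m (uu n + s n)) (uu n + t n) := by omega
      rw [h6]
      ring

theorem part_eq (a : ℕ → ℚ) (n t : ℕ) :
    (part a n t : ℝ) = (∑ i ∈ Finset.range (uu n + t), (a i : ℝ)) -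
      ∑ i ∈ Finset.range (uu n), (a i : ℝ) := by
  unfold part
  push_cast
  rw [Finset.sum_Ico_eq_sub _ (Nat.le_add_right _ _)]

theorem conv_XX {s t : ℕ → ℕ} (hst : ∀ n, s n < t n) (ht : ∀ n, t n < len n) {a : ℕ → ℚ}
    (ha : Conv a) (hN : ∃ N, ∀ n, N ≤ n → rnd a n (s n) = rnd a n (t n)) :
    Conv (sub a (XX s t)) := by
  refine conv_of_psum (infCo_XX hst ht).1 ?_
  obtain ⟨l, hl⟩ := ha
  obtain ⟨N, hN⟩ := hN
  set A : ℕ → ℝ := fun m => ∑ i ∈ Finset.range m, (a i : ℝ) with hA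
  have hcau : ∀ ε > (0 : ℝ), ∃ N, ∀ m ≥ N, ∀ n ≥ N, |A m - A n| < ε := by
    intro ε hε
    have h1 := (Metric.cauchySeq_iff.1 hl.cauchySeq) ε hε
    obtain ⟨N, hN⟩ := h1
    exact ⟨N, fun m hm n hn => by
      have := hN m hm n hn
      rwa [Real.dist_eq] at this⟩
  have hge : ∀ n, n ≤ uu n := fun n => uu_strictMono.le_apply
  -- the blocks
  let β : ℕ → ℝ := fun n => A (uu n + t n) - A (uu n + s n)
  have hβ : ∃ N', ∀ n, N' ≤ n → |β n| ≤ (1 / 2 : ℝ) ^ n := by
    obtain ⟨N1, hN1⟩ := hcau 1 one_pos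
    refine ⟨max N N1, fun n hn => ?_⟩
    have hn1 := (le_max_left _ _).trans hn
    have hn2 := (le_max_right _ _).trans hn
    have hle : ∀ t, |part a n t| ≤ 1 := by
      intro t
      have h1 := hN1 (uu n + t) (by have := hge n; omega) (uu n) (by have := hge n; omega)
      have h2 : (|part a n t| : ℝ) < 1 := by
        rw [part_eq]
        exact h1
      exact_mod_cast h2.le
    have h3 := close_of_rnd_eq (hle (s n)) (hle (t n)) (hN n hn1)
    have h4 : ((|part a n (t n) - part a n (s n)| : ℚ) : ℝ) ≤ (((1 / 2) ^ n : ℚ) : ℝ) := by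
      exact_mod_cast h3
    push_cast at h4
    rw [part_eq, part_eq] at h4
    have h5 : β n = (A (uu n + t n) - A (uu n)) - (A (uu n + s n) - A (uu n)) := by
      simp only [β]
      ring
    rw [h5]
    exact h4
  have hsum : Summable β := by
    obtain ⟨N', hN'⟩ := hβ
    rw [← summable_nat_add_iff N']
    refine Summable.of_norm_bounded (g := fun n => (1 / 2 : ℝ) ^ (n + N')) ?_ fun n => ?_
    · exact (summable_nat_add_iff N').2
        (summable_geometric_of_lt_one (by norm_num) (by norm_num))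
    · rw [Real.norm_eq_abs]
      exact hN' (n + N') (Nat.le_add_left _ _)
  have hstart : ∀ n, psum a (XX s t) (uu n) = ∑ i ∈ Finset.range n, β i := by
    intro n
    induction n with
    | zero => simp [psum, uu]
    | succ n ih =>
      have h1 := sum_block hst ht a (uu_strictMono.monotone (Nat.le_succ n)) le_rfl
      have h2 := ht n
      have h3 := hst n
      have h4 := uu_succ n
      have h5 : min (max (uu (n + 1)) (uu n + s n)) (uu n + t n) = uu n + t n := by omega
      simp only [Nat.succ_eq_add_one] at h1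
      rw [h5, ih] at h1
      rw [h1, Finset.sum_range_succ]
  refine ⟨∑' n, β n, ?_⟩
  have hβlim := hsum.hasSum.tendsto_sum_nat
  rw [Metric.tendsto_atTop] at hβlim ⊢
  intro ε hε
  obtain ⟨N1, hN1⟩ := hβlim (ε / 2) (half_pos hε)
  obtain ⟨N2, hN2⟩ := hcau (ε / 2) (half_pos hε)
  refine ⟨uu (max N1 N2), fun m hm => ?_⟩
  set n := blk uu m with hn
  have h1 : uu n ≤ m := u_blk_le rfl m
  have h2 : m < uu (n + 1) := lt_u_blk uu_strictMono m
  have h3 : max N1 N2 ≤ n := le_blk uu_strictMono hm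
  have h4 := sum_block hst ht a h1 h2.le
  rw [Real.dist_eq, h4, hstart]
  have h5 := hN1 n ((le_max_left _ _).trans h3)
  rw [Real.dist_eq] at h5
  have h6 := hge n
  have h7 := hst n
  have h8 : N2 ≤ n := (le_max_right _ _).trans h3
  have h9 := hN2 (min (max m (uu n + s n)) (uu n + t n)) (by omega) (uu n + s n) (by omega)
  have h10 : (∑ i ∈ Finset.range n, β i +
      ((∑ i ∈ Finset.range (min (max m (uu n + s n)) (uu n + t n)), (a i : ℝ)) -
        ∑ i ∈ Finset.range (uu n + s n), (a i : ℝ)) - ∑' n, β n) =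
      (∑ i ∈ Finset.range n, β i - ∑' n, β n) +
      (A (min (max m (uu n + s n)) (uu n + t n)) - A (uu n + s n)) := by
    simp only [hA]
    ring
  rw [h10]
  calc _ ≤ |∑ i ∈ Finset.range n, β i - ∑' n, β n| +
      |A (min (max m (uu n + s n)) (uu n + t n)) - A (uu n + s n)| := abs_add_le _ _
    _ < ε / 2 + ε / 2 := add_lt_add h5 h9
    _ = ε := add_halves ε

/-- `𝔰𝔰_c` is at most the number of slaloms of width `n` which are needed to capture all functions
bounded by `bB`. -/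
theorem ssc_le {Ω : Type} (h : CapAll Ω bB) : ssc ≤ #Ω := by
  obtain ⟨S, hS, hx⟩ := h
  choose s t hst ht hrnd using fun (β : Ω) (n : ℕ) => exists_pair (hS β) n
  let F : Set (Set ℕ) := Set.range fun β => XX (s β) (t β)
  have hF : ssc ≤ #F := csInf_le' ⟨F, ?_, ?_, rfl⟩
  · exact hF.trans mk_range_le
  · rintro _ ⟨β, rfl⟩
    exact infCo_XX (hst β) (ht β)
  · intro a ha
    obtain ⟨β, N, hN⟩ := hx (cod a) (cod_lt a)
    exact ⟨_, ⟨β, rfl⟩, conv_XX (hst β) (ht β) ha.1 ⟨N, fun n hn => hrnd β n a (hN n hn)⟩⟩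

theorem lt_dNum {Ω : Type} (h : NotDomAll Ω) : #Ω < dNum := by
  classical
  have hne : {c : Cardinal.{0} | ∃ D : Set (ℕ → ℕ),
      (∀ f : ℕ → ℕ, ∃ g ∈ D, ∃ N, ∀ n, N ≤ n → f n ≤ g n) ∧ #D = c}.Nonempty :=
    ⟨_, Set.univ, fun f => ⟨f, Set.mem_univ _, 0, fun _ _ => le_rfl⟩, rfl⟩
  obtain ⟨D, hD, hc⟩ := csInf_mem hne
  have hc' : #D = dNum := hc
  rw [← hc', ← not_le]
  rintro ⟨e⟩
  obtain ⟨x, hx⟩ := h (Function.extend e (fun g => g.1) fun _ _ => 0)
  obtain ⟨g, hg, hg'⟩ := hD x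
  apply hx (e ⟨g, hg⟩)
  rw [e.injective.extend_apply]
  exact hg'

end Pool.Agent.W5h83.SS
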